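import Mathlib

set_option autoImplicit false

/-! # The Petersen graph: cuts and flows -/

namespace Pool.Agent.TH676.Blk

open Finset

/-- the first ends of the edges of the Petersen graph -/
def pa : Fin 15 → Fin 10 := ![0,1,2,3,4,5,6,7,8,9,0,1,2,3,4]

/-- the second ends of the edges of the Petersen graph -/
def pb : Fin 15 → Fin 10 := ![1,2,3,4,0,7,8,9,5,6,5,6,7,8,9]

theorem pab_ne : ∀ k, pa k ≠ pb k := by decide

theorem pab_inj : ∀ k l, (pa k = pa l ∧ pb k = pb l) ∨ (pa k = pb l ∧ pb k = pa l) → k = l := by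
  decide

/-- the Petersen graph has no bridge -/
theorem pet_no_bridge (J : Fin 10 → Prop) (k : Fin 15)
    (h : ∀ l, l ≠ k → (J (pa l) ↔ J (pb l))) : J (pa k) ↔ J (pb k) := by
  fin_cases k
  · exact (show J 0 ↔ J 1 from ((((show J 4 ↔ J 0 from h 4 (by decide)).symm).trans ((show J 3 ↔ J 4 from h 3 (by decide)).symm)).trans ((show J 2 ↔ J 3 from h 2 (by decide)).symm)).trans ((show J 1 ↔ J 2 from h 1 (by decide)).symm))
  · exact (show J 1 ↔ J 2 from ((((show J 0 ↔ J 1 from h 0 (by decide)).symm).trans ((show J 4 ↔ J 0 from h 4 (by decide)).symm)).trans ((show J 3 ↔ J 4 from h 3 (by decide)).symm)).trans ((show J 2 ↔ J 3 from h 2 (by decide)).symm))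
  · exact (show J 2 ↔ J 3 from ((((show J 1 ↔ J 2 from h 1 (by decide)).symm).trans ((show J 0 ↔ J 1 from h 0 (by decide)).symm)).trans ((show J 4 ↔ J 0 from h 4 (by decide)).symm)).trans ((show J 3 ↔ J 4 from h 3 (by decide)).symm))
  · exact (show J 3 ↔ J 4 from ((((show J 2 ↔ J 3 from h 2 (by decide)).symm).trans ((show J 1 ↔ J 2 from h 1 (by decide)).symm)).trans ((show J 0 ↔ J 1 from h 0 (by decide)).symm)).trans ((show J 4 ↔ J 0 from h 4 (by decide)).symm))
  · exact (show J 4 ↔ J 0 from ((((show J 3 ↔ J 4 from h 3 (by decide)).symm).trans ((show J 2 ↔ J 3 from h 2 (by decide)).symm)).trans ((show J 1 ↔ J 2 from h 1 (by decide)).symm)).trans ((show J 0 ↔ J 1 from h 0 (by decide)).symm))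
  · exact (show J 5 ↔ J 7 from ((((show J 8 ↔ J 5 from h 8 (by decide)).symm).trans ((show J 6 ↔ J 8 from h 6 (by decide)).symm)).trans ((show J 9 ↔ J 6 from h 9 (by decide)).symm)).trans ((show J 7 ↔ J 9 from h 7 (by decide)).symm))
  · exact (show J 6 ↔ J 8 from ((((show J 9 ↔ J 6 from h 9 (by decide)).symm).trans ((show J 7 ↔ J 9 from h 7 (by decide)).symm)).trans ((show J 5 ↔ J 7 from h 5 (by decide)).symm)).trans ((show J 8 ↔ J 5 from h 8 (by decide)).symm))
  · exact (show J 7 ↔ J 9 from ((((show J 5 ↔ J 7 from h 5 (by decide)).symm).trans ((show J 8 ↔ J 5 from h 8 (by decide)).symm)).trans ((show J 6 ↔ J 8 from h 6 (by decide)).symm)).trans ((show J 9 ↔ J 6 from h 9 (by decide)).symm))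
  · exact (show J 8 ↔ J 5 from ((((show J 6 ↔ J 8 from h 6 (by decide)).symm).trans ((show J 9 ↔ J 6 from h 9 (by decide)).symm)).trans ((show J 7 ↔ J 9 from h 7 (by decide)).symm)).trans ((show J 5 ↔ J 7 from h 5 (by decide)).symm))
  · exact (show J 9 ↔ J 6 from ((((show J 7 ↔ J 9 from h 7 (by decide)).symm).trans ((show J 5 ↔ J 7 from h 5 (by decide)).symm)).trans ((show J 8 ↔ J 5 from h 8 (by decide)).symm)).trans ((show J 6 ↔ J 8 from h 6 (by decide)).symm))
  · exact (show J 0 ↔ J 5 from ((((show J 0 ↔ J 1 from h 0 (by decide))).trans ((show J 1 ↔ J 2 from h 1 (by decide)))).trans ((show J 2 ↔ J 7 from h 12 (by decide)))).trans ((show J 5 ↔ J 7 from h 5 (by decide)).symm))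
  · exact (show J 1 ↔ J 6 from ((((show J 0 ↔ J 1 from h 0 (by decide)).symm).trans ((show J 4 ↔ J 0 from h 4 (by decide)).symm)).trans ((show J 4 ↔ J 9 from h 14 (by decide)))).trans ((show J 9 ↔ J 6 from h 9 (by decide))))
  · exact (show J 2 ↔ J 7 from ((((show J 1 ↔ J 2 from h 1 (by decide)).symm).trans ((show J 0 ↔ J 1 from h 0 (by decide)).symm)).trans ((show J 0 ↔ J 5 from h 10 (by decide)))).trans ((show J 5 ↔ J 7 from h 5 (by decide))))
  · exact (show J 3 ↔ J 8 from ((((show J 2 ↔ J 3 from h 2 (by decide)).symm).trans ((show J 1 ↔ J 2 from h 1 (by decide)).symm)).trans ((show J 1 ↔ J 6 from h 11 (by decide)))).trans ((show J 6 ↔ J 8 from h 6 (by decide))))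
  · exact (show J 4 ↔ J 9 from ((((show J 3 ↔ J 4 from h 3 (by decide)).symm).trans ((show J 2 ↔ J 3 from h 2 (by decide)).symm)).trans ((show J 2 ↔ J 7 from h 12 (by decide)))).trans ((show J 7 ↔ J 9 from h 7 (by decide))))

/-- the star of a vertex -/
def ps (v : Fin 10) : Fin 15 → ZMod 2 := fun k => if pa k = v ∨ pb k = v then 1 else 0

/-- the cut space of the Petersen graph -/
def PC : Submodule (ZMod 2) (Fin 15 → ZMod 2) := Submodule.span (ZMod 2) (Set.range ps)

theorem z2_cases (x : ZMod 2) : x = 0 ∨ x = 1 := by revert x; decide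

theorem sum_ps (J : Finset (Fin 10)) (k : Fin 15) :
    (∑ v ∈ J, ps v) k = if (pa k ∈ J ↔ pb k ∈ J) then 0 else 1 := by
  rw [Finset.sum_apply]
  have h1 : ∀ v, ps v k = (if pa k = v then 1 else 0) + (if pb k = v then 1 else 0) := by
    intro v
    unfold ps
    have := pab_ne k
    by_cases a : pa k = v <;> by_cases b : pb k = v
    · exact absurd (a.trans b.symm) this
    · simp [a, b]
    · simp [a, b]
    · simp [a, b]
  simp only [h1]
  rw [sum_add_distrib, sum_ite_eq, sum_ite_eq]
  by_cases p : pa k ∈ J <;> by_cases q : pb k ∈ J <;> simp [p, q]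
  decide

/-- the elements of the cut space are the cuts -/
theorem mem_PC (x : Fin 15 → ZMod 2) :
    x ∈ PC ↔ ∃ J : Finset (Fin 10), ∀ k, x k = if (pa k ∈ J ↔ pb k ∈ J) then 0 else 1 := by
  constructor
  · intro hx
    obtain ⟨c, hc⟩ := (Submodule.mem_span_range_iff_exists_fun (ZMod 2)).mp hx
    refine ⟨univ.filter (fun v => c v = 1), fun k => ?_⟩
    have h1 : (∑ v, c v • ps v) = ∑ v ∈ univ.filter (fun v => c v = 1), ps v := by
      rw [sum_filter]
      refine sum_congr rfl fun v _ => ?_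
      rcases z2_cases (c v) with h | h
      · rw [h]; simp
      · rw [h]; simp
    rw [← sum_ps, ← hc, h1]
  · rintro ⟨J, hJ⟩
    have : x = ∑ v ∈ J, ps v := by
      funext k
      rw [sum_ps, hJ k]
    rw [this]
    exact Submodule.sum_mem _ fun v _ => Submodule.subset_span ⟨v, rfl⟩

theorem single_not_mem (k : Fin 15) : (Pi.single k 1 : Fin 15 → ZMod 2) ∉ PC := by
  intro h
  obtain ⟨J, hJ⟩ := (mem_PC _).mp h
  have h1 := pet_no_bridge (fun i => i ∈ J) k (fun l hl => by
    by_contra h2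
    have h3 := hJ l
    rw [if_neg h2, Pi.single_eq_of_ne hl] at h3
    exact absurd h3 (by decide))
  have h3 := hJ k
  rw [if_pos h1, Pi.single_eq_same] at h3
  exact absurd h3 (by decide)

theorem pet_two : ∀ j < 1024, (univ.filter (fun m : Fin 15 =>
    Nat.testBit j (pa m) ≠ Nat.testBit j (pb m))).card ≠ 2 := by
  decide +kernel

/-- the Petersen graph has no cut with two edges -/
theorem pair_not_mem (k l : Fin 15) (hkl : k ≠ l) :
    (Pi.single k 1 + Pi.single l 1 : Fin 15 → ZMod 2) ∉ PC := by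
  classical
  intro h
  obtain ⟨J, hJ⟩ := (mem_PC _).mp h
  have hb := pet_two (Nat.ofBits (fun i : Fin 10 => decide (i ∈ J))) (Nat.ofBits_lt_two_pow _)
  apply hb
  have hbit : ∀ i : Fin 10, Nat.testBit (Nat.ofBits (fun i : Fin 10 => decide (i ∈ J))) i
      = decide (i ∈ J) := by
    intro i
    rw [Nat.testBit_ofBits_lt _ _ i.2]
  have : (univ.filter (fun m : Fin 15 =>
      Nat.testBit (Nat.ofBits (fun i : Fin 10 => decide (i ∈ J))) (pa m) ≠
        Nat.testBit (Nat.ofBits (fun i : Fin 10 => decide (i ∈ J))) (pb m))) = {k, l} := by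
    ext m
    rw [mem_filter, hbit, hbit, mem_insert, mem_singleton]
    have h1 := hJ m
    rw [Pi.add_apply] at h1
    have h2 : (decide (pa m ∈ J) ≠ decide (pb m ∈ J)) ↔ ¬ (pa m ∈ J ↔ pb m ∈ J) := by
      by_cases p : pa m ∈ J <;> by_cases q : pb m ∈ J <;> simp [p, q]
    rw [h2]
    simp only [mem_univ, true_and]
    by_cases a : m = k
    · subst a
      rw [Pi.single_eq_same, Pi.single_eq_of_ne hkl, add_zero] at h1
      constructor
      · intro _; exact Or.inl rfl
      · intro _ h3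
        rw [if_pos h3] at h1
        exact absurd h1 (by decide)
    · by_cases b : m = l
      · subst b
        rw [Pi.single_eq_same, Pi.single_eq_of_ne a, zero_add] at h1
        constructor
        · intro _; exact Or.inr rfl
        · intro _ h3
          rw [if_pos h3] at h1
          exact absurd h1 (by decide)
      · rw [Pi.single_eq_of_ne a, Pi.single_eq_of_ne b, add_zero] at h1
        constructor
        · intro h3
          rw [if_neg h3] at h1
          exact absurd h1 (by decide)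
        · rintro (h3 | h3)
          · exact absurd h3 a
          · exact absurd h3 b
  rw [this]
  exact card_pair hkl

abbrev K := ZMod 2 × ZMod 2

/-- one of the values is zero -/
def bad (a0 a1 a2 a3 a4 b : K) : Bool :=
  decide (a0 = 0) || decide (a1 = 0) || decide (a2 = 0) || decide (a3 = 0) || decide (a4 = 0) ||
  decide (b = 0) || decide (a0 + a4 = 0) || decide (a0 + a1 = 0) || decide (a1 + a2 = 0) ||
  decide (a2 + a3 = 0) || decide (a3 + a4 = 0) || decide (b + (a0 + a4) = 0) ||
  decide (b + (a1 + a2) = 0) || decide (b + (a1 + a2) + (a3 + a4) = 0) ||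
  decide (b + (a1 + a2) + (a3 + a4) + (a0 + a1) = 0)

theorem bad_true : ∀ a0 a1 a2 a3 a4 b : K, bad a0 a1 a2 a3 a4 b = true := by
  decide +kernel

/-- the Petersen graph has no nowhere-zero flow with four values -/
theorem pet_flow (h : Fin 15 → K)
    (hs : ∀ x ∈ PC, ∑ k, x k • h k = 0) : ∃ k, h k = 0 := by
  have hv : ∀ v, ∑ k, ps v k • h k = 0 := fun v => hs _ (Submodule.subset_span ⟨v, rfl⟩)
  have hz : ∀ x y z : K, x + (y + z) = 0 → z = x + y := by decide
  have hy : ∀ x y z : K, x + (y + z) = 0 → y = x + z := by decide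
  have hx : ∀ x y z : K, x + (y + z) = 0 → x = y + z := by decide
  have q0 := hv 0; have q1 := hv 1; have q2 := hv 2; have q3 := hv 3; have q4 := hv 4
  have q5 := hv 5; have q6 := hv 6; have q7 := hv 7; have q9 := hv 9
  simp [Fin.sum_univ_succ, ps, pa, pb] at q0 q1 q2 q3 q4 q5 q6 q7 q9
  have r10 := hz _ _ _ q0
  have r11 := hz _ _ _ q1
  have r12 := hz _ _ _ q2
  have r13 := hz _ _ _ q3
  have r14 := hz _ _ _ q4
  have r8 := hy _ _ _ q5
  have r7 := hy _ _ _ q7
  have r9 := hy _ _ _ q9
  have r6 := hx _ _ _ q6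
  have hb := bad_true (h 0) (h 1) (h 2) (h 3) (h 4) (h 5)
  unfold bad at hb
  rw [← r10, ← r11, ← r12, ← r13, ← r14, ← r8, ← r7, ← r9, ← r6] at hb
  simp only [Bool.or_eq_true, decide_eq_true_eq] at hb
  rcases hb with (((((((((((((hb | hb) | hb) | hb) | hb) | hb) | hb) | hb) | hb) | hb) | hb) | hb) |
    hb) | hb) | hb
  all_goals exact ⟨_, hb⟩

end Pool.Agent.TH676.Blk
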